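import Pool.Agent.Helper15.AM.GoalsG

/-!
# Project AM (MP_cc6379_al), packet AM-GPA: parabolic subgroups, first part.
-/

set_option autoImplicit false

open Pool.Agent.Helper15.RA Pool.Agent.Helper45.AM

namespace Pool.Agent.Helper28.AM

variable {S W : Type} [Group W] {M : CoxeterMatrix S} (cs : CoxeterSystem M W) (P : Set S)

theorem simple_mem {i : S} (hi : i ∈ P) : cs.simple i ∈ par cs P :=
  Subgroup.subset_closure ⟨i, hi, rfl⟩

theorem prod_mem (ω : List S) (h : ∀ i ∈ ω, i ∈ P) : cs.wordProd ω ∈ par cs P := by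
  induction ω with
  | nil => simp
  | cons a l ih =>
    rw [cs.wordProd_cons]
    exact Subgroup.mul_mem _ (simple_mem cs P (h a (by simp))) (ih fun i hi => h i (by simp [hi]))

theorem exists_word {w : W} (hw : w ∈ par cs P) : ∃ ω : List S, (∀ i ∈ ω, i ∈ P) ∧ cs.wordProd ω = w := by
  unfold par at hw
  induction hw using Subgroup.closure_induction with
  | mem x hx =>
    obtain ⟨i, hi, rfl⟩ := hx
    exact ⟨[i], by simpa using hi, by simp⟩
  | one => exact ⟨[], by simp, by simp⟩
  | mul x y _ _ hx hy =>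
    obtain ⟨a, ha, rfl⟩ := hx
    obtain ⟨b, hb, rfl⟩ := hy
    refine ⟨a ++ b, ?_, cs.wordProd_append a b⟩
    intro i hi
    rcases List.mem_append.1 hi with h | h
    · exact ha i h
    · exact hb i h
  | inv x _ hx =>
    obtain ⟨a, ha, rfl⟩ := hx
    exact ⟨a.reverse, fun i hi => ha i (by simpa using hi), cs.wordProd_reverse a⟩

/-- A shortest `P`-word. -/
def Sh (ω : List S) : Prop :=
  (∀ i ∈ ω, i ∈ P) ∧ ∀ ω' : List S, (∀ i ∈ ω', i ∈ P) → cs.wordProd ω' = cs.wordProd ω → ω.length ≤ ω'.length

theorem exists_sh {w : W} (hw : w ∈ par cs P) : ∃ ω : List S, Sh cs P ω ∧ cs.wordProd ω = w := by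
  classical
  have hex : ∃ n : ℕ, ∃ ω : List S, (∀ i ∈ ω, i ∈ P) ∧ cs.wordProd ω = w ∧ ω.length = n := by
    obtain ⟨ω, h1, h2⟩ := exists_word cs P hw
    exact ⟨ω.length, ω, h1, h2, rfl⟩
  obtain ⟨ω, h1, h2, h3⟩ := Nat.find_spec hex
  refine ⟨ω, ⟨h1, ?_⟩, h2⟩
  intro ω' h4 h5
  rw [h3]
  exact Nat.find_min' hex ⟨ω', h4, h5.trans h2, rfl⟩

theorem Sh.pre {ω : List S} {i : S} (h : Sh cs P (ω ++ [i])) : Sh cs P ω := by
  refine ⟨fun j hj => h.1 j (by simp [hj]), ?_⟩
  intro ω' h1 h2
  have h3 := h.2 (ω' ++ [i]) (by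
    intro j hj
    rcases List.mem_append.1 hj with hj | hj
    · exact h1 j hj
    · exact h.1 j (by simp at hj; simp [hj])) (by
    rw [cs.wordProd_append, cs.wordProd_append, h2])
  simpa using h3

theorem claim (hEX : Pool.Agent.Helper15.AM.G_EX) (x : W)
    (hx : ∀ g ∈ par cs P, cs.length x ≤ cs.length (x * g)) :
    ∀ ω : List S, Sh cs P ω → cs.length (x * cs.wordProd ω) = cs.length x + ω.length := by
  intro ω
  induction ω using List.reverseRecOn with
  | nil => simp
  | append_singleton ω' i ih =>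
    intro h
    have h' := Sh.pre cs P h
    have ih' := ih h'
    obtain ⟨η, hη, hxη⟩ := cs.exists_isReduced x
    have hη' : cs.length x = η.length := by rw [hxη]; exact hη
    have hred : cs.IsReduced (η ++ ω') := by
      unfold CoxeterSystem.IsReduced
      rw [cs.wordProd_append, ← hxη, ih', List.length_append, hη']
    by_contra hne
    have hprod : cs.wordProd (ω' ++ [i]) = cs.wordProd ω' * cs.simple i := by
      rw [cs.wordProd_append]; simp
    have hlt : cs.length (cs.wordProd (η ++ ω') * cs.simple i) < cs.length (cs.wordProd (η ++ ω')) := by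
      rw [cs.wordProd_append, ← hxη]
      rw [hprod, ← mul_assoc] at hne
      rcases cs.length_mul_simple (x * cs.wordProd ω') i with h1 | h1
      · exfalso
        apply hne
        rw [h1, ih', List.length_append]
        simp [add_assoc]
      · omega
    obtain ⟨k, hk, hk2⟩ := hEX S W M cs (η ++ ω') i hred hlt
    rcases lt_or_ge k η.length with hkl | hkl
    · rw [List.eraseIdx_append_of_lt_length hkl, cs.wordProd_append, cs.wordProd_append, ← hxη] at hk2
      have hmem : cs.wordProd ω' * cs.simple i * (cs.wordProd ω')⁻¹ ∈ par cs P :=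
        Subgroup.mul_mem _ (Subgroup.mul_mem _ (prod_mem cs P ω' h'.1)
          (simple_mem cs P (h.1 i (by simp)))) (Subgroup.inv_mem _ (prod_mem cs P ω' h'.1))
      have h2 := hx _ hmem
      have h3 : x * (cs.wordProd ω' * cs.simple i * (cs.wordProd ω')⁻¹) = cs.wordProd (η.eraseIdx k) := by
        rw [← mul_assoc, ← mul_assoc, hk2]
        simp
      rw [h3, hη'] at h2
      have h4 := cs.length_wordProd_le (η.eraseIdx k)
      rw [List.length_eraseIdx_of_lt hkl] at h4
      omega
    · rw [List.eraseIdx_append_of_length_le hkl, cs.wordProd_append, cs.wordProd_append, mul_assoc] at hk2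
      have h2 := mul_left_cancel hk2
      have h3 := h.2 (ω'.eraseIdx (k - η.length)) (fun j hj => h'.1 j (List.mem_of_mem_eraseIdx hj)) (by
        rw [hprod, h2])
      have h4 : (ω'.eraseIdx (k - η.length)).length ≤ ω'.length := List.length_eraseIdx_le _ _
      simp at h3
      omega

theorem sh_reduced (hEX : Pool.Agent.Helper15.AM.G_EX) {ω : List S} (h : Sh cs P ω) :
    cs.IsReduced ω := by
  have := claim cs P hEX 1 (by simp) ω h
  simpa [CoxeterSystem.IsReduced] using this

theorem exists_min (w : W) : ∃ g ∈ par cs P, ∀ g' ∈ par cs P, cs.length (w * g) ≤ cs.length (w * g * g') := by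
  classical
  have hex : ∃ n : ℕ, ∃ g ∈ par cs P, cs.length (w * g) = n := ⟨_, 1, Subgroup.one_mem _, rfl⟩
  obtain ⟨g, hg, h3⟩ := Nat.find_spec hex
  refine ⟨g, hg, ?_⟩
  intro g' hg'
  rw [h3]
  exact Nat.find_min' hex ⟨g * g', Subgroup.mul_mem _ hg hg', by rw [mul_assoc]⟩

theorem h_gpa : Pool.Agent.Helper15.AM.G_EX → Pool.Agent.Helper15.AM.G_PA := by
  intro hEX S W _ M cs P
  refine ⟨?_, ?_, ?_⟩
  · intro w hw
    obtain ⟨ω, h1, h2⟩ := exists_sh cs P hw
    exact ⟨ω, sh_reduced cs P hEX h1, h1.1, h2.symm⟩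
  · intro w
    obtain ⟨g, hg, h1⟩ := exists_min cs P w
    refine ⟨w * g, g⁻¹, Subgroup.inv_mem _ hg, ?_, by simp⟩
    intro i hi
    have h2 := h1 _ (simple_mem cs P hi)
    rcases cs.length_mul_simple (w * g) i with h3 | h3
    · exact h3
    · omega
  · intro x hx g hg
    obtain ⟨g₀, hg₀, h1⟩ := exists_min cs P x
    obtain ⟨ω, h2, h3⟩ := exists_sh cs P (Subgroup.inv_mem _ hg₀)
    have hxw : x = x * g₀ * cs.wordProd ω := by rw [h3]; simp
    have hω : ω = [] := by
      rcases List.eq_nil_or_concat ω with h | ⟨ω', i, h⟩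
      · exact h
      · exfalso
        rw [List.concat_eq_append] at h
        subst h
        have h4 := claim cs P hEX (x * g₀) h1 _ h2
        have h5 := claim cs P hEX (x * g₀) h1 _ (Sh.pre cs P h2)
        rw [← hxw] at h4
        have h6 : x * cs.simple i = x * g₀ * cs.wordProd ω' := by
          conv_lhs => rw [hxw]
          rw [cs.wordProd_append]
          simp [mul_assoc]
        have h7 := hx i (h2.1 i (by simp))
        rw [h6, h5, h4] at h7
        simp at h7
        omega
    have h1' : ∀ g' ∈ par cs P, cs.length x ≤ cs.length (x * g') := by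
      have : x * g₀ = x := by
        rw [hω] at hxw
        simpa using hxw.symm
      intro g' hg'
      have := h1 g' hg'
      rwa [‹x * g₀ = x›] at this
    obtain ⟨τ, h8, h9⟩ := exists_sh cs P hg
    have h10 := claim cs P hEX x h1' τ h8
    have h11 := sh_reduced cs P hEX h8
    unfold CoxeterSystem.IsReduced at h11
    rw [h9] at h10 h11
    rw [h10, h11]

end Pool.Agent.Helper28.AM
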